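import Pool.Agent.FUR.Stmts

/-!
# Squad FUR, row SEM
-/

set_option autoImplicit false

namespace Pool.Agent.FUR.H62

open Pool.Agent.FUR

theorem sem_sub (τ : ℕ → PF) (σ : ℕ → Bool) (φ : PF) :
    (φ.sub τ).eval σ = φ.eval fun v => (τ v).eval σ := by
  induction φ with
  | cst b => rfl
  | var v => rfl
  | neg φ ih => simp only [PF.sub, PF.eval, ih]
  | and φ ψ ih1 ih2 => simp only [PF.sub, PF.eval, ih1, ih2]
  | or φ ψ ih1 ih2 => simp only [PF.sub, PF.eval, ih1, ih2]

theorem sem_congr (σ σ' : ℕ → Bool) (φ : PF) (h : ∀ v ∈ φ.vars, σ v = σ' v) :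
    φ.eval σ = φ.eval σ' := by
  induction φ with
  | cst b => rfl
  | var v => exact h v (by simp [PF.vars])
  | neg φ ih => simp only [PF.eval]; rw [ih h]
  | and φ ψ ih1 ih2 =>
      simp only [PF.eval]
      rw [ih1 (fun v hv => h v (by simp [PF.vars, hv])),
        ih2 (fun v hv => h v (by simp [PF.vars, hv]))]
  | or φ ψ ih1 ih2 =>
      simp only [PF.eval]
      rw [ih1 (fun v hv => h v (by simp [PF.vars, hv])),
        ih2 (fun v hv => h v (by simp [PF.vars, hv]))]

theorem sem_sub1 (u : ℕ) (B : PF) (σ : ℕ → Bool) (φ : PF) :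
    (φ.sub1 u B).eval σ = φ.eval (Function.update σ u (B.eval σ)) := by
  rw [PF.sub1, sem_sub]
  congr 1
  funext v
  by_cases hv : v = u
  · subst hv; simp
  · simp [Function.update_of_ne hv, PF.eval]

theorem sem_vars (τ : ℕ → PF) (φ : PF) (v : ℕ) (h : v ∈ (φ.sub τ).vars) :
    ∃ w ∈ φ.vars, v ∈ (τ w).vars := by
  induction φ with
  | cst b => simp [PF.sub, PF.vars] at h
  | var w => exact ⟨w, by simp [PF.vars], h⟩
  | neg φ ih => exact ih h
  | and φ ψ ih1 ih2 =>
      simp only [PF.sub, PF.vars, Finset.mem_union] at h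
      rcases h with h | h
      · obtain ⟨w, hw, hv⟩ := ih1 h
        exact ⟨w, by simp [PF.vars, hw], hv⟩
      · obtain ⟨w, hw, hv⟩ := ih2 h
        exact ⟨w, by simp [PF.vars, hw], hv⟩
  | or φ ψ ih1 ih2 =>
      simp only [PF.sub, PF.vars, Finset.mem_union] at h
      rcases h with h | h
      · obtain ⟨w, hw, hv⟩ := ih1 h
        exact ⟨w, by simp [PF.vars, hw], hv⟩
      · obtain ⟨w, hw, hv⟩ := ih2 h
        exact ⟨w, by simp [PF.vars, hw], hv⟩

/-- **SEM**. -/
theorem sem : SEMStmt := by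
  refine ⟨sem_sub, sem_sub1, sem_congr, ?_⟩
  intro u B φ v hv
  obtain ⟨w, hw, hv⟩ := sem_vars _ φ v hv
  by_cases hwu : w = u
  · subst hwu
    left
    simpa using hv
  · right
    rw [Function.update_of_ne hwu] at hv
    simp only [PF.vars, Finset.mem_singleton] at hv
    subst hv
    exact ⟨hw, hwu⟩

end Pool.Agent.FUR.H62
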