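import Pool.Agent.FUR.Stmts

/-!
# Squad FUR, row SZQ
-/

set_option autoImplicit false

namespace Pool.Agent.FUR.H62

open Pool.Agent.FUR

theorem szq_block (t a x : ℕ) :
    ((xorC t a x).map fun c => (clF c).size + 1).sum = 30 := by
  simp [xorC, clF, litF, PF.size]

theorem szq_blocks (f : ℕ → List (List (ℕ × Bool)))
    (hf : ∀ i, ((f i).map fun c => (clF c).size + 1).sum = 30) (l : List ℕ) :
    ((l.flatMap f).map fun c => (clF c).size + 1).sum = 30 * l.length := by
  induction l with
  | nil => simp
  | cons a l ih =>
      rw [List.flatMap_cons, List.map_append, List.sum_append, ih, hf, List.length_cons]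
      ring

/-- **SZQ**. -/
theorem szq : SZQStmt := by
  intro n hn
  constructor
  · have h1 : (((List.range (n - 1)).flatMap fun i =>
        xorC (n + 1 + (i + 1)) (n + 1 + i) (i + 1)).map fun c => (clF c).size + 1).sum
          = 30 * (n - 1) := by
      rw [szq_blocks _ (fun i => szq_block _ _ _), List.length_range]
    have h2 : (QPar n).size = 2 * (n + (n + 1)) + (10 + 30 * (n - 1) + 10) := by
      unfold QBF.size
      have h3 : (QPar n).pre.length = n + (n + 1) := by
        simp [QPar]
      rw [h3]
      congr 1
      have h4 : (QPar n).mat = [[(n + 1, false), (0, true)], [(n + 1, true), (0, false)]] ++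
        ((List.range (n - 1)).flatMap fun i => xorC (n + 1 + (i + 1)) (n + 1 + i) (i + 1)) ++
        [[(n, true), (2 * n, true)], [(n, false), (2 * n, false)]] := rfl
      rw [h4, List.map_append, List.sum_append, List.map_append, List.sum_append, h1]
      simp [clF, litF, PF.size]
    rw [h2]
    omega
  · intro c hc l hl
    have h3 : (QPar n).pre.length = n + (n + 1) := by
      simp [QPar]
    rw [h3]
    have h4 : (QPar n).mat = [[(n + 1, false), (0, true)], [(n + 1, true), (0, false)]] ++
        ((List.range (n - 1)).flatMap fun i => xorC (n + 1 + (i + 1)) (n + 1 + i) (i + 1)) ++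
        [[(n, true), (2 * n, true)], [(n, false), (2 * n, false)]] := rfl
    rw [h4, List.mem_append, List.mem_append] at hc
    rcases hc with (hc | hc) | hc
    · simp only [List.mem_cons, List.not_mem_nil, or_false] at hc
      rcases hc with rfl | rfl
      · simp only [List.mem_cons, List.not_mem_nil, or_false] at hl
        rcases hl with rfl | rfl <;> simp <;> omega
      · simp only [List.mem_cons, List.not_mem_nil, or_false] at hl
        rcases hl with rfl | rfl <;> simp <;> omega
    · rw [List.mem_flatMap] at hc
      obtain ⟨i, hi, hc⟩ := hc
      rw [List.mem_range] at hi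
      simp only [xorC, List.mem_cons, List.not_mem_nil, or_false] at hc
      rcases hc with rfl | rfl | rfl | rfl <;>
        simp only [List.mem_cons, List.not_mem_nil, or_false] at hl <;>
        rcases hl with rfl | rfl | rfl <;> simp only <;> omega
    · simp only [List.mem_cons, List.not_mem_nil, or_false] at hc
      rcases hc with rfl | rfl
      · simp only [List.mem_cons, List.not_mem_nil, or_false] at hl
        rcases hl with rfl | rfl <;> simp <;> omega
      · simp only [List.mem_cons, List.not_mem_nil, or_false] at hl
        rcases hl with rfl | rfl <;> simp <;> omega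

end Pool.Agent.FUR.H62
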